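import Mathlib

/-!
The sequence game over five letters: runs of equalities `x n = x (n - q)`.
Words are lists of natural numbers, the newest letter first.
-/

namespace Pool.Agent.Lib.MP_f2e062_co.Five

/-- length of the current run of equalities at distance `q` -/
def run (q : ℕ) : List ℕ → ℕ
  | [] => 0
  | a :: u => if u[q - 1]? = some a then run q u + 1 else 0

lemma run_cons (q a : ℕ) (u : List ℕ) :
    run q (a :: u) = if u[q - 1]? = some a then run q u + 1 else 0 := rfl

lemma run_cons_pos {q a : ℕ} {u : List ℕ} (h : 1 ≤ run q (a :: u)) :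
    u[q - 1]? = some a ∧ run q (a :: u) = run q u + 1 := by
  rw [run_cons] at h ⊢
  split_ifs at h ⊢ with h1
  · exact ⟨h1, rfl⟩
  · omega

lemma run_cons_le (q a : ℕ) (u : List ℕ) : run q (a :: u) ≤ run q u + 1 := by
  rw [run_cons]
  split_ifs
  · exact le_rfl
  · omega

lemma run_le_length (q : ℕ) (hq : 1 ≤ q) (u : List ℕ) : run q u + q ≤ u.length ∨ run q u = 0 := by
  induction u with
  | nil => right; rfl
  | cons a u ih =>
    rw [run_cons]
    split_ifs with h
    · left
      have h1 : q - 1 < u.length := by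
        by_contra hc
        rw [List.getElem?_eq_none (by omega)] at h
        exact absurd h (by simp)
      rcases ih with h2 | h2
      · simp only [List.length_cons]; omega
      · simp only [List.length_cons]; omega
    · right; rfl

/-- If two distances have runs of length at least `m`, then the difference has such a run
at an earlier time. -/
lemma sep {q d : ℕ} (hq : 1 ≤ q) (hd : 1 ≤ d) (u : List ℕ) (m : ℕ)
    (h1 : m ≤ run q u) (h2 : m ≤ run (q + d) u) : m ≤ run d (u.drop q) := by
  induction u generalizing m with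
  | nil => simpa [run] using h1
  | cons a u ih =>
    cases m with
    | zero => exact Nat.zero_le _
    | succ m =>
      obtain ⟨e1, f1⟩ := run_cons_pos (show 1 ≤ run q (a :: u) by omega)
      obtain ⟨e2, f2⟩ := run_cons_pos (show 1 ≤ run (q + d) (a :: u) by omega)
      have h3 := ih m (by omega) (by omega)
      have e3 : (a :: u).drop q = a :: u.drop q := by
        obtain ⟨q', rfl⟩ : ∃ q', q = q' + 1 := ⟨q - 1, by omega⟩
        rw [List.drop_succ_cons]
        have h4 : q' + 1 - 1 = q' := rfl
        rw [h4] at e1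
        obtain ⟨hl, he⟩ := List.getElem?_eq_some_iff.1 e1
        rw [List.drop_eq_getElem_cons hl, he]
      rw [e3, run_cons]
      have e4 : (u.drop q)[d - 1]? = some a := by
        rw [List.getElem?_drop]
        have : q + (d - 1) = q + d - 1 := by omega
        rw [this]; exact e2
      rw [if_pos e4]
      omega

lemma le_run {q : ℕ} (hq : 1 ≤ q) (u : List ℕ) (m : ℕ)
    (h : ∀ t < m, ∃ a, u[t]? = some a ∧ u[t + q]? = some a) : m ≤ run q u := by
  induction u generalizing m with
  | nil =>
    cases m with
    | zero => exact Nat.zero_le _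
    | succ m => obtain ⟨a, ha, _⟩ := h 0 (by omega); simp at ha
  | cons b u ih =>
    cases m with
    | zero => exact Nat.zero_le _
    | succ m =>
      obtain ⟨a, ha, ha'⟩ := h 0 (by omega)
      have h1 : u[q - 1]? = some b := by
        simp only [List.getElem?_cons_zero, Option.some.injEq] at ha
        subst ha
        obtain ⟨q', rfl⟩ : ∃ q', q = q' + 1 := ⟨q - 1, by omega⟩
        rw [zero_add, List.getElem?_cons_succ] at ha'
        simpa using ha'
      rw [run_cons, if_pos h1]
      have h2 : m ≤ run q u := by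
        refine ih m (fun t ht => ?_)
        obtain ⟨c, hc, hc'⟩ := h (t + 1) (by omega)
        rw [List.getElem?_cons_succ] at hc
        have : t + 1 + q = (t + q) + 1 := by omega
        rw [this, List.getElem?_cons_succ] at hc'
        exact ⟨c, hc, hc'⟩
      omega

/-- sum over a sparse set of periods -/
lemma sparse_sum (P : ℕ → Prop) [DecidablePred P]
    (h : ∀ q, P q → ¬ P (q + 1) ∧ ¬ P (q + 2)) (M : ℕ) :
    ∀ n m : ℕ, M ≤ m + n → 4 ≤ m →
      ∑ q ∈ Finset.Ico m M, (if P q then (2 / 3 : ℚ) ^ ((q - 4) / 2) else 0) ≤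
        (if m % 2 = 0 then 45 / 19 else 39 / 19) * (2 / 3 : ℚ) ^ ((m - 4) / 2) := by
  have hpos : ∀ m : ℕ, (0 : ℚ) ≤ (if m % 2 = 0 then 45 / 19 else 39 / 19) * (2 / 3 : ℚ) ^ ((m - 4) / 2) := by
    intro m
    split_ifs <;> positivity
  intro n
  induction n using Nat.strong_induction_on with
  | _ n ih =>
    intro m hM hm
    rcases Nat.lt_or_ge m M with hlt | hge
    · rw [Finset.sum_eq_sum_Ico_succ_bot hlt]
      by_cases hP : P m
      · rw [if_pos hP]
        obtain ⟨h1, h2⟩ := h m hP
        have key : ∑ q ∈ Finset.Ico (m + 1) M, (if P q then (2 / 3 : ℚ) ^ ((q - 4) / 2) else 0)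
            ≤ (if (m + 3) % 2 = 0 then 45 / 19 else 39 / 19) * (2 / 3 : ℚ) ^ ((m + 3 - 4) / 2) := by
          rcases Nat.lt_or_ge (m + 1) M with hlt1 | hge1
          · rw [Finset.sum_eq_sum_Ico_succ_bot hlt1, if_neg h1, zero_add]
            rcases Nat.lt_or_ge (m + 2) M with hlt2 | hge2
            · rw [Finset.sum_eq_sum_Ico_succ_bot hlt2, if_neg h2, zero_add]
              rcases Nat.lt_or_ge n 3 with hn | hn
              · rw [Finset.Ico_eq_empty (by omega), Finset.sum_empty]
                exact hpos (m + 3)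
              · exact ih (n - 3) (by omega) (m + 3) (by omega) (by omega)
            · rw [Finset.Ico_eq_empty (by omega), Finset.sum_empty]
              exact hpos (m + 3)
          · rw [Finset.Ico_eq_empty (by omega), Finset.sum_empty]
            exact hpos (m + 3)
        rcases Nat.mod_two_eq_zero_or_one m with hp | hp
        · obtain ⟨k, rfl⟩ : ∃ k, m = 2 * k + 4 := ⟨(m - 4) / 2, by omega⟩
          have e1 : (2 * k + 4 - 4) / 2 = k := by omega
          have e2 : (2 * k + 4 + 3 - 4) / 2 = k + 1 := by omega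
          rw [e2, if_neg (by omega)] at key
          rw [e1, if_pos hp]
          rw [pow_succ] at key
          linarith
        · obtain ⟨k, rfl⟩ : ∃ k, m = 2 * k + 5 := ⟨(m - 5) / 2, by omega⟩
          have e1 : (2 * k + 5 - 4) / 2 = k := by omega
          have e2 : (2 * k + 5 + 3 - 4) / 2 = k + 2 := by omega
          rw [e2, if_pos (by omega)] at key
          rw [e1, if_neg (by omega)]
          rw [pow_add] at key
          norm_num at key
          have : (0 : ℚ) ≤ (2 / 3) ^ k := by positivity
          nlinarith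
      · rw [if_neg hP, zero_add]
        have key : ∑ q ∈ Finset.Ico (m + 1) M, (if P q then (2 / 3 : ℚ) ^ ((q - 4) / 2) else 0)
            ≤ (if (m + 1) % 2 = 0 then 45 / 19 else 39 / 19) * (2 / 3 : ℚ) ^ ((m + 1 - 4) / 2) :=
          ih (n - 1) (by omega) (m + 1) (by omega) (by omega)
        refine key.trans ?_
        rcases Nat.mod_two_eq_zero_or_one m with hp | hp
        · obtain ⟨k, rfl⟩ : ∃ k, m = 2 * k + 4 := ⟨(m - 4) / 2, by omega⟩
          have e1 : (2 * k + 4 - 4) / 2 = k := by omega
          have e2 : (2 * k + 4 + 1 - 4) / 2 = k := by omega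
          rw [e1, e2, if_pos hp, if_neg (show ¬ (2 * k + 4 + 1) % 2 = 0 by omega)]
          have : (0 : ℚ) ≤ (2 / 3) ^ k := by positivity
          nlinarith
        · obtain ⟨k, rfl⟩ : ∃ k, m = 2 * k + 5 := ⟨(m - 5) / 2, by omega⟩
          have e1 : (2 * k + 5 - 4) / 2 = k := by omega
          have e2 : (2 * k + 5 + 1 - 4) / 2 = k + 1 := by omega
          rw [e1, e2, if_pos (show (2 * k + 5 + 1) % 2 = 0 by omega),
            if_neg (show ¬ (2 * k + 5) % 2 = 0 by omega), pow_succ]
          have : (0 : ℚ) ≤ (2 / 3) ^ k := by positivity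
          nlinarith
    · rw [Finset.Ico_eq_empty (by omega), Finset.sum_empty]
      exact hpos m

lemma sparse_sum16 (P : ℕ → Prop) [DecidablePred P]
    (h : ∀ q, P q → ¬ P (q + 1) ∧ ¬ P (q + 2)) (M : ℕ) :
    ∑ q ∈ Finset.Ico 16 M, (if P q then (2 / 3 : ℚ) ^ ((q - 4) / 2) else 0) ≤ 21 / 100 := by
  refine (sparse_sum P h M M 16 (by omega) (by omega)).trans ?_
  norm_num

end Pool.Agent.Lib.MP_f2e062_co.Five
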