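import Mathlib
import Pool.Agent.Lib.MP_f2e062_co.FiveRun
import Pool.Agent.Lib.MP_f2e062_co.FiveTab

/-!
The sequence game over five letters: the invariant of Player 1 and one round of the game.
-/

namespace Pool.Agent.Lib.MP_f2e062_co.Five

/-- the last seven letters -/
def win (u : List ℕ) : List ℕ := (u ++ List.replicate 7 9).take 7

/-- the runs at distances 1, …, 7 -/
def rv (u : List ℕ) : List ℕ := (List.range 7).map (fun i => run (i + 1) u)

/-- forget short runs -/
def nz (r : ℕ) : ℕ := if 2 ≤ r then r else 0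

/-- the long runs at distances 8, …, 15 -/
def evec (u : List ℕ) : List ℕ := (List.range 8).map (fun i => nz (run (8 + i) u))

/-- the long runs that survive the letter `a` -/
def sv (u : List ℕ) (a : ℕ) : List ℕ :=
  (List.range 8).map (fun i => if u[7 + i]? = some a then nz (run (8 + i) u) else 0)

/-- weight of a long run -/
def wt (q r : ℕ) : ℚ := (2 / 3) ^ ((q - 1 - r) / 2)

/-- total weight of the distances at least 16 -/
def Phi (u : List ℕ) : ℚ :=
  ∑ q ∈ Finset.Ico 16 (u.length + 1), if 2 ≤ run q u then wt q (run q u) else 0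

/-- total weight that survives the letter `a` -/
def Psi (u : List ℕ) (a : ℕ) : ℚ :=
  ∑ q ∈ Finset.Ico 16 (u.length + 1),
    if 2 ≤ run q u ∧ u[q - 1]? = some a then wt q (run q u) else 0

/-- a renaming of the five letters -/
structure Rel (π : ℕ → ℕ) : Prop where
  nine : π 9 = 9
  lt : ∀ x < 5, π x < 5
  inj : ∀ x < 5, ∀ y < 5, π x = π y → x = y
  surj : ∀ y < 5, ∃ x < 5, π x = y

lemma Rel.comp {π ρ : ℕ → ℕ} (h : Rel π) (h' : Rel ρ) : Rel (ρ ∘ π) where
  nine := by simp [h.nine, h'.nine]
  lt := fun x hx => h'.lt _ (h.lt x hx)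
  inj := fun x hx y hy e => h.inj x hx y hy (h'.inj _ (h.lt x hx) _ (h.lt y hy) e)
  surj := fun y hy => by
    obtain ⟨z, hz, rfl⟩ := h'.surj y hy
    obtain ⟨x, hx, rfl⟩ := h.surj z hz
    exact ⟨x, hx, rfl⟩

lemma idx_spec (x : ℕ) (o : List ℕ) (h : x ∈ o) : idx x o < o.length ∧ o[idx x o]? = some x := by
  induction o with
  | nil => simp at h
  | cons y l ih =>
    unfold idx
    cases h1 : Nat.beq x y with
    | true =>
      rw [cond_true]
      have := Nat.eq_of_beq_eq_true h1
      subst this
      simp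
    | false =>
      rw [cond_false]
      have h2 : x ≠ y := Nat.ne_of_beq_eq_false h1
      have h3 : x ∈ l := by
        rcases List.mem_cons.1 h with h | h
        · exact absurd h h2
        · exact h
      obtain ⟨h4, h5⟩ := ih h3
      exact ⟨by simp only [List.length_cons]; omega, by rw [List.getElem?_cons_succ]; exact h5⟩

lemma rel_relab {o : List ℕ} (h : isPerm o = true) : Rel (relab o) := by
  unfold isPerm at h
  rw [Bool.and_eq_true, List.all_eq_true] at h
  obtain ⟨h1, h2⟩ := h
  have h3 : o.length = 5 := Nat.eq_of_beq_eq_true h2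
  have hmem : ∀ x < 5, x ∈ o := by
    intro x hx
    have := h1 x (by interval_cases x <;> simp)
    simpa using this
  have hne : ∀ x < 5, relab o x = idx x o := by
    intro x hx
    unfold relab
    have : Nat.beq x 9 = false := by interval_cases x <;> rfl
    rw [this, cond_false]
  have hlt : ∀ x < 5, relab o x < 5 := fun x hx => by
    rw [hne x hx]; have := (idx_spec x o (hmem x hx)).1; omega
  have hinj : ∀ x < 5, ∀ y < 5, relab o x = relab o y → x = y := by
    intro x hx y hy e
    rw [hne x hx, hne y hy] at e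
    have a := (idx_spec x o (hmem x hx)).2
    have b := (idx_spec y o (hmem y hy)).2
    rw [e, b] at a
    exact (Option.some.inj a).symm
  refine ⟨rfl, hlt, hinj, ?_⟩
  let f : Fin 5 → Fin 5 := fun x => ⟨relab o x, hlt x x.2⟩
  have hf : Function.Injective f := by
    intro x y e
    have := congrArg Fin.val e
    exact Fin.ext (hinj x x.2 y y.2 this)
  have hs : Function.Surjective f := Finite.injective_iff_surjective.1 hf
  intro y hy
  obtain ⟨x, hx⟩ := hs ⟨y, hy⟩
  exact ⟨x, x.2, congrArg Fin.val hx⟩

lemma win_cons (a : ℕ) (u : List ℕ) : win (a :: u) = a :: (win u).take 6 := by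
  unfold win
  rw [List.cons_append, List.take_succ_cons, List.take_take]
  rfl

lemma win_length (u : List ℕ) : (win u).length = 7 := by
  unfold win
  simp

lemma rv_length (u : List ℕ) : (rv u).length = 7 := by simp [rv]

lemma win_get (u : List ℕ) (i : ℕ) (hi : i < 7) :
    ∃ x, (win u)[i]? = some x ∧ (u[i]? = some x ∨ (u[i]? = none ∧ x = 9)) := by
  unfold win
  rw [List.getElem?_take_of_lt hi]
  rcases Nat.lt_or_ge i u.length with h | h
  · rw [List.getElem?_append_left h]
    exact ⟨u[i], by simp [h], Or.inl (by simp [h])⟩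
  · rw [List.getElem?_append_right h]
    refine ⟨9, ?_, Or.inr ⟨by simp [h], rfl⟩⟩
    rw [List.getElem?_replicate, if_pos (by omega)]

lemma win_lt {u : List ℕ} (hu : ∀ x ∈ u, x < 5) {x : ℕ} (hx : x ∈ win u) : x < 5 ∨ x = 9 := by
  unfold win at hx
  have := List.mem_of_mem_take hx
  rcases List.mem_append.1 this with h | h
  · exact Or.inl (hu x h)
  · exact Or.inr (List.eq_of_mem_replicate h)

lemma Rel.eq_iff {π : ℕ → ℕ} (h : Rel π) {x a : ℕ} (hx : x < 5 ∨ x = 9) (ha : a < 5) :
    π x = π a ↔ x = a := by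
  constructor
  · intro e
    rcases hx with hx | hx
    · exact h.inj x hx a ha e
    · subst hx
      rw [h.nine] at e
      have := h.lt a ha
      omega
  · rintro rfl; rfl

lemma rv_cons {π : ℕ → ℕ} (h : Rel π) {u : List ℕ} (hu : ∀ x ∈ u, x < 5) {a : ℕ} (ha : a < 5) :
    rv (a :: u) = updR ((win u).map π) (rv u) (π a) := by
  apply List.ext_getElem?
  intro i
  unfold updR
  rw [List.getElem?_zipWith]
  rcases Nat.lt_or_ge i 7 with hi | hi
  · obtain ⟨x, hx, hx'⟩ := win_get u i hi
    have hmem : x < 5 ∨ x = 9 := win_lt hu (List.mem_of_getElem? hx)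
    rw [List.getElem?_map, hx]
    simp only [rv, List.getElem?_map, List.getElem?_range hi, Option.map_some]
    rw [run_cons]
    have e : i + 1 - 1 = i := rfl
    rw [e]
    by_cases hxa : x = a
    · subst hxa
      have h1 : u[i]? = some x := by
        rcases hx' with h1 | ⟨_, h1⟩
        · exact h1
        · omega
      rw [if_pos h1]
      have h2 : Nat.beq (π x) (π x) = true := by simp
      rw [h2, cond_true]
    · have h1 : ¬ u[i]? = some a := by
        rcases hx' with h1 | ⟨h1, _⟩
        · rw [h1]; intro hc; exact hxa (Option.some.inj hc)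
        · rw [h1]; simp
      rw [if_neg h1]
      have h2 : Nat.beq (π x) (π a) = false := by
        cases h3 : Nat.beq (π x) (π a) with
        | false => rfl
        | true => exact absurd ((h.eq_iff hmem ha).1 (Nat.eq_of_beq_eq_true h3)) hxa
      rw [h2, cond_false]
  · have h1 : (rv (a :: u))[i]? = none := List.getElem?_eq_none (by rw [rv_length]; exact hi)
    have h2 : (rv u)[i]? = none := List.getElem?_eq_none (by rw [rv_length]; exact hi)
    rw [h1, h2]
    cases ((win u).map π)[i]? <;> rfl

lemma win_map_cons (π : ℕ → ℕ) (a : ℕ) (u : List ℕ) :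
    (win (a :: u)).map π = π a :: ((win u).map π).take 6 := by
  rw [win_cons, List.map_cons, List.map_take]

lemma leAll_spec : ∀ (l m : List ℕ), leAll l m = true → ∀ (i a b : ℕ), l[i]? = some a →
    m[i]? = some b → a ≤ b
  | [], _, _, i, a, b, h1, _ => by simp at h1
  | _ :: _, [], _, i, a, b, _, h2 => by simp at h2
  | x :: l, y :: m, h, i, a, b, h1, h2 => by
    unfold leAll at h
    rw [Bool.and_eq_true] at h
    cases i with
    | zero =>
      simp only [List.getElem?_cons_zero, Option.some.injEq] at h1 h2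
      subst h1; subst h2
      exact Nat.le_of_ble_eq_true h.1
    | succ i =>
      rw [List.getElem?_cons_succ] at h1 h2
      exact leAll_spec l m h.2 i a b h1 h2

lemma run_le_of_leAll {u m : List ℕ} {R : ℕ → ℕ} (h : leAll (rv u) m = true)
    (hm : ∀ i < 7, m[i]? = some (R (i + 1))) (d : ℕ) (hd : 1 ≤ d) (hd' : d ≤ 7) :
    run d u ≤ R d := by
  have := leAll_spec _ _ h (d - 1) (run d u) (R d) ?_ ?_
  · exact this
  · have e : d - 1 + 1 = d := by omega
    simp only [rv, List.getElem?_map, List.getElem?_range (show d - 1 < 7 by omega),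
      Option.map_some, e]
  · have e : d - 1 + 1 = d := by omega
    rw [hm (d - 1) (by omega), e]

lemma okLetter_spec {π : ℕ → ℕ} (h : Rel π) {u : List ℕ} (hu : ∀ x ∈ u, x < 5) {a : ℕ}
    (ha : a < 5) (hok : okLetter ((win u).map π) (rv u) (π a) = true) :
    (∀ d, 1 ≤ d → d ≤ 7 → run d (a :: u) ≤ RO d) ∧
    ∀ b < 5, (∀ d, 1 ≤ d → d ≤ 7 → run d (b :: a :: u) ≤ RE d) ∧
      ∃ (π' : ℕ → ℕ) (p : ℕ × ℕ), Rel π' ∧
        smallT.find (enc 10 ((win (b :: a :: u)).map π' ++ rv (b :: a :: u))) = some p := by
  have hau : ∀ x ∈ a :: u, x < 5 := by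
    intro x hx
    rcases List.mem_cons.1 hx with rfl | hx
    · exact ha
    · exact hu x hx
  unfold okLetter at hok
  rw [Bool.and_eq_true, List.all_eq_true, ← rv_cons h hu ha, ← win_map_cons] at hok
  obtain ⟨h1, h2⟩ := hok
  refine ⟨fun d hd hd' => run_le_of_leAll h1 (R := RO) (fun i hi => by
    interval_cases i <;> rfl) d hd hd', fun b hb => ?_⟩
  have h3 := h2 (π b) (by
    have := h.lt b hb
    generalize π b = y at this
    interval_cases y <;> simp)
  rw [Bool.and_eq_true, ← rv_cons h hau hb, ← win_map_cons] at h3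
  obtain ⟨h4, h5⟩ := h3
  refine ⟨fun d hd hd' => run_le_of_leAll h4 (R := RE) (fun i hi => by
    interval_cases i <;> rfl) d hd hd', ?_⟩
  unfold okState at h5
  simp only [Bool.and_eq_true] at h5
  obtain ⟨h6, h7⟩ := h5
  rw [List.map_map] at h7
  obtain ⟨p, hp⟩ := Option.isSome_iff_exists.1 h7
  exact ⟨_, p, h.comp (rel_relab h6), hp⟩

/-- The invariant at Player 1's turns. -/
structure Inv (u : List ℕ) : Prop where
  even : u.length % 2 = 0
  lt : ∀ x ∈ u, x < 5
  bd : ∀ j d, 1 ≤ d → d ≤ 7 → run d (u.drop j) ≤ Rb d (u.length - j)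
  sq : ∀ j q, 1 ≤ q → run q (u.drop j) < max q 2
  small : ∃ (π : ℕ → ℕ) (p : ℕ × ℕ), Rel π ∧
    smallT.find (enc 10 ((win u).map π ++ rv u)) = some p
  abs : ∃ v g : ℕ, tab.find (enc 16 (evec u)) = some (v, g) ∧ 100 * Phi u < v

lemma Rb_even {d p : ℕ} (h : p % 2 = 0) : Rb d p = RE d := by
  unfold Rb; rw [h]; rfl

lemma Rb_odd {d p : ℕ} (h : p % 2 = 1) : Rb d p = RO d := by
  unfold Rb; rw [h]; rfl

lemma Rb_congr {d p p' : ℕ} (h : p % 2 = p' % 2) : Rb d p = Rb d p' := by
  unfold Rb; rw [h]

lemma exists_two_letters {u : List ℕ} (hI : Inv u) : ∃ a b : ℕ, a < 5 ∧ b < 5 ∧ a ≠ b ∧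
    ∀ c, (c = a ∨ c = b) → (∀ d, 1 ≤ d → d ≤ 7 → run d (c :: u) ≤ RO d) ∧
    ∀ y < 5, (∀ d, 1 ≤ d → d ≤ 7 → run d (y :: c :: u) ≤ RE d) ∧
      ∃ (π' : ℕ → ℕ) (p : ℕ × ℕ), Rel π' ∧
        smallT.find (enc 10 ((win (y :: c :: u)).map π' ++ rv (y :: c :: u))) = some p := by
  obtain ⟨π, ⟨a', b'⟩, hπ, hf⟩ := hI.small
  have hc := T.find_allNodes smallT checkS_all hf
  have hr : ∀ x ∈ rv u, x < 10 := by
    intro x hx
    simp only [rv, List.mem_map, List.mem_range] at hx
    obtain ⟨i, hi, rfl⟩ := hx
    have := hI.bd 0 (i + 1) (by omega) (by omega)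
    rw [List.drop_zero, Nat.sub_zero, Rb_even hI.even] at this
    have h2 : RE (i + 1) ≤ 5 := by interval_cases i <;> decide
    omega
  have hw : ∀ x ∈ (win u).map π, x < 10 := by
    intro x hx
    obtain ⟨y, hy, rfl⟩ := List.mem_map.1 hx
    rcases win_lt hI.lt hy with h | h
    · have := hπ.lt y h; omega
    · rw [h, hπ.nine]; omega
  have hd : dec 14 (enc 10 ((win u).map π ++ rv u)) = (win u).map π ++ rv u := by
    have := dec_enc ((win u).map π ++ rv u) (fun x hx => by
      rcases List.mem_append.1 hx with h | h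
      · exact hw x h
      · exact hr x h)
    rw [List.length_append, List.length_map, win_length, rv_length] at this
    exact this
  unfold checkS at hc
  rw [hd] at hc
  have e1 : ((win u).map π ++ rv u).take 7 = (win u).map π := by
    rw [List.take_append_of_le_length (by rw [List.length_map, win_length]),
      List.take_of_length_le (by rw [List.length_map, win_length])]
  have e2 : ((win u).map π ++ rv u).drop 7 = rv u := by
    have : ((win u).map π).length = 7 := by rw [List.length_map, win_length]
    rw [← this, List.drop_left]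
  rw [e1, e2] at hc
  simp only [Bool.and_eq_true, Bool.not_eq_true'] at hc
  obtain ⟨⟨ha', hb', hab⟩, h1, h2⟩ := hc
  rw [Nat.blt_eq] at ha' hb'
  have hab' : a' ≠ b' := Nat.ne_of_beq_eq_false hab
  obtain ⟨a, ha, rfl⟩ := hπ.surj a' ha'
  obtain ⟨b, hb, rfl⟩ := hπ.surj b' hb'
  refine ⟨a, b, ha, hb, fun e => hab' (by rw [e]), ?_⟩
  rintro c (rfl | rfl)
  · exact okLetter_spec hπ hI.lt ha h1
  · exact okLetter_spec hπ hI.lt hb h2

lemma okWith_of {f : ℕ → ℕ → ℕ → ℕ → Bool} {q r : ℕ} : ∀ {q' : ℕ} {e : List ℕ},
    (∀ j r', e[j]? = some r' → r' ≠ 0 → f q r (q' + j) r' = true) → okWith f q r q' e = true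
  | _, [], _ => rfl
  | q', s :: e, h => by
    unfold okWith
    rw [Bool.and_eq_true, Bool.or_eq_true]
    constructor
    · by_cases hs : s = 0
      · left; subst hs; rfl
      · right
        have := h 0 s (by simp) hs
        simpa using this
    · refine okWith_of (fun j r' hj hr' => ?_)
      have := h (j + 1) r' (by rw [List.getElem?_cons_succ]; exact hj) hr'
      have e1 : q' + (j + 1) = q' + 1 + j := by omega
      rw [e1] at this
      exact this

lemma okVec_of {f : ℕ → ℕ → ℕ → ℕ → Bool} : ∀ {q : ℕ} {e : List ℕ},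
    (∀ i j r r', i < j → e[i]? = some r → e[j]? = some r' → r ≠ 0 → r' ≠ 0 →
      f (q + i) r (q + j) r' = true) → okVec f q e = true
  | _, [], _ => rfl
  | q, s :: e, h => by
    unfold okVec
    rw [Bool.and_eq_true, Bool.or_eq_true]
    constructor
    · by_cases hs : s = 0
      · left; subst hs; rfl
      · right
        refine okWith_of (fun j r' hj hr' => ?_)
        have := h 0 (j + 1) s r' (by omega) (by simp) (by rw [List.getElem?_cons_succ]; exact hj)
          hs hr'
        have e1 : q + (j + 1) = q + 1 + j := by omega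
        rw [e1] at this
        exact this
    · refine okVec_of (fun i j r r' hij hi hj hr hr' => ?_)
      have := h (i + 1) (j + 1) r r' (by omega) (by rw [List.getElem?_cons_succ]; exact hi)
        (by rw [List.getElem?_cons_succ]; exact hj) hr hr'
      have e1 : q + (i + 1) = q + 1 + i := by omega
      have e2 : q + (j + 1) = q + 1 + j := by omega
      rw [e1, e2] at this
      exact this

lemma okVec_map {f : ℕ → ℕ → ℕ → ℕ → Bool} {g : ℕ → ℕ}
    (h : ∀ i j, i < j → j < 8 → g i ≠ 0 → g j ≠ 0 → f (8 + i) (g i) (8 + j) (g j) = true) :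
    okVec f 8 ((List.range 8).map g) = true := by
  refine okVec_of (fun i j r r' hij hi hj hr hr' => ?_)
  rw [List.getElem?_map] at hi hj
  have hj8 : j < 8 := by
    by_contra hc
    rw [List.getElem?_eq_none (by simpa using hc)] at hj
    simp at hj
  rw [List.getElem?_range (by omega)] at hi hj
  simp only [Option.map_some, Option.some.injEq] at hi hj
  subst hi; subst hj
  exact h i j hij hj8 hr hr'

lemma vecs_mem : ∀ {q : ℕ} {e : List ℕ} {css : List (List ℕ)},
    List.Forall₂ (fun r cs => r ∈ cs) e css → okVec okp q e = true → e ∈ vecs q css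
  | _, [], _, h, _ => by
    cases h
    simp [vecs]
  | q, r :: e, _, h, hok => by
    cases h with
    | cons h1 h2 =>
      unfold okVec at hok
      rw [Bool.and_eq_true] at hok
      unfold vecs
      rw [List.mem_flatMap]
      refine ⟨e, vecs_mem h2 hok.2, ?_⟩
      rw [List.mem_map]
      exact ⟨r, List.mem_filter.2 ⟨h1, hok.1⟩, rfl⟩

lemma forall₂_map {g : ℕ → ℕ} {css : List (List ℕ)} (hl : css.length = 8)
    (h : ∀ i < 8, ∀ cs, css[i]? = some cs → g i ∈ cs) :
    List.Forall₂ (fun r cs => r ∈ cs) ((List.range 8).map g) css := by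
  rw [List.forall₂_iff_get]
  refine ⟨by simp [hl], fun i h1 h2 => ?_⟩
  simp only [List.length_map, List.length_range] at h1
  have := h i h1 (css.get ⟨i, h2⟩) (by simp)
  simpa using this

lemma nz_ne {r : ℕ} (h : nz r ≠ 0) : 2 ≤ r ∧ nz r = r := by
  unfold nz at h ⊢
  split_ifs at h ⊢ with h1
  · exact ⟨h1, rfl⟩
  · exact absurd rfl h

lemma mn_eq (r s : ℕ) : mn r s = min r s := by
  unfold mn
  cases h : Nat.ble r s with
  | true => rw [cond_true, min_eq_left (Nat.le_of_ble_eq_true h)]
  | false =>
    rw [cond_false, min_eq_right]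
    by_contra hc
    have : Nat.ble r s = true := by rw [Nat.ble_eq]; omega
    rw [h] at this
    exact absurd this (by simp)

lemma drop_length_le {u : List ℕ} {q : ℕ} (hq : 1 ≤ q) (h : 1 ≤ run q u) : q ≤ u.length := by
  rcases run_le_length q hq u with h1 | h1
  · omega
  · omega

lemma pair_sep {u : List ℕ} (he : u.length % 2 = 0)
    (hbd : ∀ j d, 1 ≤ d → d ≤ 7 → run d (u.drop j) ≤ Rb d (u.length - j))
    {q q' : ℕ} (hq : 1 ≤ q) (hqq : q < q') (hd : q' - q ≤ 7)
    (h1 : 1 ≤ run q u) (h2 : 1 ≤ run q' u) :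
    min (run q u) (run q' u) ≤ Rb (q' - q) q ∧
    min (run q u) (run q' u) ≤ Rb (q' - q) (q + 1) + 1 := by
  have hql : q ≤ u.length := drop_length_le hq h1
  have hq'l : q' ≤ u.length := drop_length_le (by omega) h2
  have e : q + (q' - q) = q' := by omega
  constructor
  · have h := sep hq (show 1 ≤ q' - q by omega) u (min (run q u) (run q' u)) (min_le_left _ _)
      (by rw [e]; exact min_le_right _ _)
    refine h.trans ((hbd q (q' - q) (by omega) hd).trans (le_of_eq ?_))
    exact Rb_congr (by omega)
  · cases u with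
    | nil => simp [run] at h1
    | cons a u =>
      obtain ⟨_, f1⟩ := run_cons_pos h1
      obtain ⟨_, f2⟩ := run_cons_pos h2
      have h := sep hq (show 1 ≤ q' - q by omega) u (min (run q u) (run q' u)) (min_le_left _ _)
        (by rw [e]; exact min_le_right _ _)
      have h3 := hbd (q + 1) (q' - q) (by omega) hd
      rw [List.drop_succ_cons] at h3
      have h4 : Rb (q' - q) ((a :: u).length - (q + 1)) = Rb (q' - q) (q + 1) := by
        refine Rb_congr ?_
        simp only [List.length_cons] at hql hq'l he ⊢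
        omega
      rw [h4] at h3
      rw [f1, f2]
      have h5 := h.trans h3
      omega

lemma okVec_sub {u : List ℕ} (he : u.length % 2 = 0)
    (hbd : ∀ j d, 1 ≤ d → d ≤ 7 → run d (u.drop j) ≤ Rb d (u.length - j))
    {g : ℕ → ℕ} (hg : ∀ i, g i ≠ 0 → 2 ≤ run (8 + i) u ∧ g i = run (8 + i) u) :
    okVec okp 8 ((List.range 8).map g) = true := by
  refine okVec_map (fun i j hij hj hi0 hj0 => ?_)
  obtain ⟨a1, a2⟩ := hg i hi0
  obtain ⟨b1, b2⟩ := hg j hj0
  rw [a2, b2]
  obtain ⟨h1, h2⟩ := pair_sep he hbd (q := 8 + i) (q' := 8 + j) (by omega) (by omega) (by omega)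
    (by omega) (by omega)
  unfold okp
  rw [Bool.and_eq_true, mn_eq, Nat.ble_eq, Nat.ble_eq]
  exact ⟨h1, h2⟩

lemma okVec_evec {u : List ℕ} (he : u.length % 2 = 0)
    (hbd : ∀ j d, 1 ≤ d → d ≤ 7 → run d (u.drop j) ≤ Rb d (u.length - j)) :
    okVec okp 8 (evec u) = true :=
  okVec_sub he hbd (fun _ hi => nz_ne hi)

lemma sv_ne {u : List ℕ} {a i : ℕ}
    (h : (if u[7 + i]? = some a then nz (run (8 + i) u) else 0) ≠ 0) :
    u[7 + i]? = some a ∧ 2 ≤ run (8 + i) u ∧
      (if u[7 + i]? = some a then nz (run (8 + i) u) else 0) = run (8 + i) u := by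
  split_ifs at h ⊢ with h1
  · exact ⟨h1, nz_ne h⟩
  · exact absurd rfl h

lemma okVec_sv {u : List ℕ} (hI : Inv u) (a : ℕ) : okVec okp 8 (sv u a) = true :=
  okVec_sub hI.even hI.bd (fun _ hi => (sv_ne hi).2)

lemma okVec_same {u : List ℕ} (hI : Inv u) (a : ℕ) : okVec samep 8 (sv u a) = true := by
  refine okVec_map (fun i j hij hj hi0 hj0 => ?_)
  obtain ⟨a0, a1, a2⟩ := sv_ne hi0
  obtain ⟨b0, b1, b2⟩ := sv_ne hj0
  rw [a2, b2]
  unfold samep
  rw [mn_eq, Nat.ble_eq]
  have r1 : run (8 + i) (a :: u) = run (8 + i) u + 1 := by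
    rw [run_cons]
    have : 8 + i - 1 = 7 + i := by omega
    rw [this, if_pos a0]
  have r2 : run (8 + j) (a :: u) = run (8 + j) u + 1 := by
    rw [run_cons]
    have : 8 + j - 1 = 7 + j := by omega
    rw [this, if_pos b0]
  have e : 8 + i + (8 + j - (8 + i)) = 8 + j := by omega
  have h := sep (q := 8 + i) (d := 8 + j - (8 + i)) (by omega) (by omega) (a :: u)
    (min (run (8 + i) u) (run (8 + j) u) + 1) (by rw [r1]; omega) (by rw [e, r2]; omega)
  have e2 : (a :: u).drop (8 + i) = u.drop (7 + i) := by
    have : 8 + i = (7 + i) + 1 := by omega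
    rw [this, List.drop_succ_cons]
  rw [e2] at h
  have hl : 8 + i ≤ u.length := drop_length_le (by omega) (by omega)
  refine h.trans ((hI.bd (7 + i) _ (by omega) (by omega)).trans (le_of_eq (Rb_congr ?_)))
  have := hI.even
  omega

lemma cands_mem {u : List ℕ} {g : ℕ → ℕ}
    (hg : ∀ i, g i = 0 ∨ (2 ≤ g i ∧ g i < 8 + i)) :
    List.Forall₂ (fun r cs => r ∈ cs) ((List.range 8).map g) candsFull := by
  refine forall₂_map rfl (fun i hi cs hcs => ?_)
  have h := hg i
  generalize g i = r at h
  rcases h with rfl | ⟨h1, h2⟩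
  · interval_cases i <;> simp only [candsFull, List.getElem?_cons_zero, List.getElem?_cons_succ,
      Option.some.injEq] at hcs <;> subst hcs <;> simp
  · interval_cases i <;> simp only [candsFull, List.getElem?_cons_zero, List.getElem?_cons_succ,
      Option.some.injEq] at hcs <;> subst hcs <;> interval_cases r <;> simp

lemma subs_mem (l : List ℕ) (e s t : ℕ → ℕ)
    (h : ∀ i ∈ l, (s i = 0 ∧ t i = 0) ∨ (e i ≠ 0 ∧ s i = e i ∧ t i = 0) ∨
      (e i ≠ 0 ∧ s i = 0 ∧ t i = e i)) :
    (l.map s, l.map t) ∈ subs (l.map e) := by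
  induction l with
  | nil => simp [subs]
  | cons i l ih =>
    have ih' := ih (fun j hj => h j (by simp [hj]))
    simp only [List.map_cons]
    unfold subs
    rw [List.mem_flatMap]
    refine ⟨_, ih', ?_⟩
    rcases h i (by simp) with ⟨h1, h2⟩ | ⟨h0, h1, h2⟩ | ⟨h0, h1, h2⟩
    · rw [h1, h2]
      cases Nat.beq (e i) 0 <;> simp
    · have : Nat.beq (e i) 0 = false := by
        cases hb : Nat.beq (e i) 0 with
        | false => rfl
        | true => exact absurd (Nat.eq_of_beq_eq_true hb) h0
      rw [h1, h2, this]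
      simp
    · have : Nat.beq (e i) 0 = false := by
        cases hb : Nat.beq (e i) 0 with
        | false => rfl
        | true => exact absurd (Nat.eq_of_beq_eq_true hb) h0
      rw [h1, h2, this]
      simp

lemma wt_nonneg (q r : ℕ) : 0 ≤ wt q r := by
  unfold wt; positivity

lemma psi_add_le (u : List ℕ) {a b : ℕ} (hab : a ≠ b) : Psi u a + Psi u b ≤ Phi u := by
  unfold Psi Phi
  rw [← Finset.sum_add_distrib]
  refine Finset.sum_le_sum (fun q _ => ?_)
  have hw := wt_nonneg q (run q u)
  by_cases h1 : 2 ≤ run q u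
  · by_cases h2 : u[q - 1]? = some a
    · have h3 : ¬ u[q - 1]? = some b := by
        rw [h2]; intro hc; exact hab (Option.some.inj hc)
      simp [h1, h2, h3, hab]
    · by_cases h3 : u[q - 1]? = some b
      · simp [h1, h3, Ne.symm hab, hab]
      · simp [h1, h2, h3, hw]
  · simp [h1]

lemma psi_term_le (u : List ℕ) (a q : ℕ) (hq : 16 ≤ q) (h1 : 2 ≤ run q u)
    (h2 : u[q - 1]? = some a) : wt q (run q u) ≤ Psi u a := by
  unfold Psi
  have hmem : q ∈ Finset.Ico 16 (u.length + 1) := by
    have := drop_length_le (show 1 ≤ q by omega) (show 1 ≤ run q u by omega)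
    exact Finset.mem_Ico.2 ⟨hq, by omega⟩
  have := Finset.single_le_sum (f := fun q => if 2 ≤ run q u ∧ u[q - 1]? = some a then
    wt q (run q u) else 0) (fun i _ => by
      split_ifs
      · exact wt_nonneg _ _
      · exact le_rfl) hmem
  simp only [h1, h2, and_self, if_true] at this
  exact this

/-- One round of the game. -/
lemma step {u : List ℕ} (hI : Inv u) : ∃ a < 5, ∀ b < 5, Inv (b :: a :: u) := by
  obtain ⟨α, β, hα, hβ, hαβ, hlet⟩ := exists_two_letters hI
  obtain ⟨v, g, htab, hphi⟩ := hI.abs
  -- the vector of long runs is in the list of all compatible vectors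
  have hev : evec u ∈ vecs 8 candsFull := by
    refine vecs_mem (cands_mem (u := u) (fun i => ?_)) (okVec_evec hI.even hI.bd)
    by_cases h : nz (run (8 + i) u) = 0
    · exact Or.inl h
    · obtain ⟨h1, h2⟩ := nz_ne h
      right
      rw [h2]
      have := hI.sq 0 (8 + i) (by omega)
      rw [List.drop_zero] at this
      exact ⟨h1, by omega⟩
  have hsv : ∀ a, sv u a ∈ vecs 8 candsFull := by
    intro a
    refine vecs_mem (cands_mem (u := u) (fun i => ?_)) (okVec_sv hI a)
    by_cases h : (if u[7 + i]? = some a then nz (run (8 + i) u) else 0) = 0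
    · exact Or.inl h
    · obtain ⟨h0, h1, h2⟩ := sv_ne h
      right
      rw [h2]
      have := hI.sq 0 (8 + i) (by omega)
      rw [List.drop_zero] at this
      exact ⟨h1, by omega⟩
  have hc1 := List.all_eq_true.1 check1_all _ hev
  unfold check1 at hc1
  rw [htab] at hc1
  simp only at hc1
  have hc1' := List.all_eq_true.1 hc1 (sv u α, sv u β) (by
    refine subs_mem (List.range 8) _ _ _ (fun i _ => ?_)
    by_cases hn : nz (run (8 + i) u) = 0
    · left
      rw [hn]
      simp
    · by_cases h2 : u[7 + i]? = some α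
      · have h3 : ¬ u[7 + i]? = some β := by
          rw [h2]; intro hc; exact hαβ (Option.some.inj hc)
        right; left
        rw [if_pos h2, if_neg h3]
        exact ⟨hn, rfl, rfl⟩
      · by_cases h3 : u[7 + i]? = some β
        · right; right
          rw [if_neg h2, if_pos h3]
          exact ⟨hn, rfl, rfl⟩
        · left
          rw [if_neg h2, if_neg h3]
          exact ⟨rfl, rfl⟩)
  simp only [okVec_same hI α, okVec_same hI β, Bool.and_self, cond_true, Nat.ble_eq] at hc1'
  -- choice of the letter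
  obtain ⟨a, haα, haG⟩ : ∃ a, (a = α ∨ a = β) ∧ 100 * Psi u a < (Gv (sv u a) : ℚ) := by
    by_contra hcon
    push Not at hcon
    have h1 := hcon α (Or.inl rfl)
    have h2 := hcon β (Or.inr rfl)
    have h3 := psi_add_le u hαβ
    have h4 : (v : ℚ) ≤ (Gv (sv u α) : ℚ) + (Gv (sv u β) : ℚ) := by exact_mod_cast hc1'
    linarith
  have ha5 : a < 5 := by rcases haα with rfl | rfl <;> assumption
  obtain ⟨hlo, hle⟩ := hlet a haα
  refine ⟨a, ha5, fun b hb5 => ?_⟩
  obtain ⟨hre, hsm⟩ := hle b hb5
  have hGpos : Gv (sv u a) ≠ 0 := by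
    intro h0
    rw [h0] at haG
    have : 0 ≤ Psi u a := by
      unfold Psi
      refine Finset.sum_nonneg (fun q _ => ?_)
      split_ifs
      · exact wt_nonneg _ _
      · exact le_rfl
    push_cast at haG
    linarith
  have hc2 := List.all_eq_true.1 check2_all _ (hsv a)
  unfold check2 at hc2
  have hb0 : Nat.beq (Gv (sv u a)) 0 = false := by
    cases hb : Nat.beq (Gv (sv u a)) 0 with
    | false => rfl
    | true => exact absurd (Nat.eq_of_beq_eq_true hb) hGpos
  rw [hb0, cond_false, Bool.and_eq_true, Bool.and_eq_true, List.all_eq_true, Nat.ble_eq] at hc2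
  obtain ⟨hnc, hG100, hnext⟩ := hc2
  -- noncritical entries
  have hncrit : ∀ i < 8, u[7 + i]? = some a → 2 ≤ run (8 + i) u → run (8 + i) u + 3 ≤ 8 + i := by
    intro i hi h1 h2
    have key : ∀ (q : ℕ) (e : List ℕ), noncrit q e = true → ∀ j r, e[j]? = some r → r ≠ 0 →
        r + 3 ≤ q + j := by
      intro q e
      induction e generalizing q with
      | nil => intro _ j r hj; simp at hj
      | cons s e ih =>
        intro hn j r hj hr
        unfold noncrit at hn
        rw [Bool.and_eq_true, Bool.or_eq_true, Nat.ble_eq] at hn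
        cases j with
        | zero =>
          simp only [List.getElem?_cons_zero, Option.some.injEq] at hj
          subst hj
          rcases hn.1 with h | h
          · exact absurd (Nat.eq_of_beq_eq_true h) hr
          · omega
        | succ j =>
          rw [List.getElem?_cons_succ] at hj
          have := ih (q + 1) hn.2 j r hj hr
          omega
    have h3 := key 8 (sv u a) hnc i (run (8 + i) u) (by
      unfold sv
      rw [List.getElem?_map, List.getElem?_range hi]
      simp only [Option.map_some, Option.some.injEq]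
      rw [if_pos h1]
      unfold nz
      rw [if_pos h2]) (by omega)
    omega
  have hG1 : (Gv (sv u a) : ℚ) ≤ 100 := by exact_mod_cast hG100
  have hncrit2 : ∀ q, 16 ≤ q → u[q - 1]? = some a → 2 ≤ run q u → run q u + 3 ≤ q := by
    intro q hq h1 h2
    have h3 := psi_term_le u a q hq h2 h1
    by_contra hcon
    have h4 : (q - 1 - run q u) / 2 = 0 := by omega
    unfold wt at h3
    rw [h4, pow_zero] at h3
    linarith
  -- no repetitions
  have hsq1 : ∀ q, 1 ≤ q → run q (a :: u) < max q 2 ∧ (8 ≤ q → run q (a :: u) + 1 < q) := by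
    intro q hq
    rcases Nat.lt_or_ge q 8 with h8 | h8
    · refine ⟨?_, fun h => by omega⟩
      have h1 := hlo q hq (by omega)
      have h2 : RO q < max q 2 := by interval_cases q <;> decide
      omega
    · have h1 : run q (a :: u) + 1 < q := by
        rw [run_cons]
        split_ifs with hm
        · rcases Nat.lt_or_ge (run q u) 2 with h2 | h2
          · omega
          · rcases Nat.lt_or_ge q 16 with h16 | h16
            · obtain ⟨i, rfl⟩ : ∃ i, q = 8 + i := ⟨q - 8, by omega⟩
              have e : 8 + i - 1 = 7 + i := by omega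
              rw [e] at hm
              have := hncrit i (by omega) hm h2
              omega
            · have := hncrit2 q h16 hm h2
              omega
        · omega
      exact ⟨by omega, fun _ => h1⟩
  have hsq2 : ∀ q, 1 ≤ q → run q (b :: a :: u) < max q 2 := by
    intro q hq
    rcases Nat.lt_or_ge q 8 with h8 | h8
    · have h1 := hre q hq (by omega)
      have h2 : RE q < max q 2 := by interval_cases q <;> decide
      omega
    · have h1 := (hsq1 q hq).2 h8
      have h2 := run_cons_le q b (a :: u)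
      omega
  have heven : (b :: a :: u).length % 2 = 0 := by
    have := hI.even
    simp only [List.length_cons]; omega
  have hbd : ∀ j d, 1 ≤ d → d ≤ 7 →
      run d ((b :: a :: u).drop j) ≤ Rb d ((b :: a :: u).length - j) := by
    intro j d hd hd'
    have hev := hI.even
    match j with
    | 0 =>
      rw [List.drop_zero, Nat.sub_zero, Rb_even heven]
      exact hre d hd hd'
    | 1 =>
      rw [List.drop_succ_cons, List.drop_zero, Rb_odd (by simp only [List.length_cons]; omega)]
      exact hlo d hd hd'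
    | j + 2 =>
      rw [List.drop_succ_cons, List.drop_succ_cons]
      have := hI.bd j d hd hd'
      have e : (b :: a :: u).length - (j + 2) = u.length - j := by
        simp only [List.length_cons]; omega
      rw [e]; exact this
  -- the new vector
  have hev' : evec (b :: a :: u) ∈ vecs 8 (nextC (sv u a)) := by
    refine vecs_mem (forall₂_map (by simp [nextC, sv]) (fun i hi cs hcs => ?_))
      (okVec_evec heven hbd)
    unfold nextC sv at hcs
    rw [List.map_map, List.getElem?_map, List.getElem?_range hi] at hcs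
    simp only [Option.map_some, Option.some.injEq, Function.comp_apply] at hcs
    subst hcs
    have h1 := run_cons_le (8 + i) b (a :: u)
    have hr2 : run (8 + i) (b :: a :: u) = run (8 + i) (a :: u) + 1 ∨
        run (8 + i) (b :: a :: u) = 0 := by
      rw [run_cons (8 + i) b]
      split_ifs
      · exact Or.inl rfl
      · exact Or.inr rfl
    have e7 : 8 + i - 1 = 7 + i := by omega
    by_cases hm : u[7 + i]? = some a
    · have hr1 : run (8 + i) (a :: u) = run (8 + i) u + 1 := by
        rw [run_cons, e7, if_pos hm]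
      rw [if_pos hm]
      by_cases h2 : 2 ≤ run (8 + i) u
      · have e : nz (run (8 + i) u) = run (8 + i) u := by unfold nz; rw [if_pos h2]
        rw [e]
        have hb : Nat.beq (run (8 + i) u) 0 = false := by
          cases hb : Nat.beq (run (8 + i) u) 0 with
          | false => rfl
          | true => have := Nat.eq_of_beq_eq_true hb; omega
        rw [hb, cond_false]
        rcases hr2 with h3 | h3
        · rw [h3, hr1]
          have : nz (run (8 + i) u + 1 + 1) = run (8 + i) u + 2 := by
            unfold nz; rw [if_pos (by omega)]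
          rw [this]; simp
        · rw [h3]; simp [nz]
      · have e : nz (run (8 + i) u) = 0 := by unfold nz; rw [if_neg h2]
        rw [e]
        have hle : run (8 + i) (b :: a :: u) ≤ 3 := by omega
        generalize run (8 + i) (b :: a :: u) = r at hle
        interval_cases r <;> simp [nz]
    · have hr1 : run (8 + i) (a :: u) = 0 := by
        rw [run_cons, e7, if_neg hm]
      rw [if_neg hm]
      have hle : run (8 + i) (b :: a :: u) ≤ 1 := by omega
      generalize run (8 + i) (b :: a :: u) = r at hle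
      interval_cases r <;> simp [nz]
  have hn := hnext _ hev'
  -- the new potential
  have hPhi : Phi (b :: a :: u) ≤ 3 / 2 * Psi u a + 21 / 100 := by
    have hP : ∀ q, 2 ≤ run q (b :: a :: u) ∧ run q u ≤ 1 ∧ 1 ≤ q →
        ¬ (2 ≤ run (q + 1) (b :: a :: u) ∧ run (q + 1) u ≤ 1 ∧ 1 ≤ q + 1) ∧
        ¬ (2 ≤ run (q + 2) (b :: a :: u) ∧ run (q + 2) u ≤ 1 ∧ 1 ≤ q + 2) := by
      rintro q ⟨hq1, _, hq2⟩
      constructor
      · rintro ⟨h1, _, _⟩
        have h2 := sep hq2 (le_refl 1) _ 2 hq1 h1
        have h3 := hbd q 1 le_rfl (by omega)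
        have h4 : Rb 1 ((b :: a :: u).length - q) ≤ 1 := by
          unfold Rb
          cases Nat.beq (((b :: a :: u).length - q) % 2) 0 <;> decide
        omega
      · rintro ⟨h1, _, _⟩
        have h2 := sep hq2 (show 1 ≤ 2 by norm_num) _ 2 hq1 h1
        have h3 := hbd q 2 (by norm_num) (by norm_num)
        have h4 : Rb 2 ((b :: a :: u).length - q) ≤ 1 := by
          unfold Rb
          cases Nat.beq (((b :: a :: u).length - q) % 2) 0 <;> decide
        omega
    classical
    have hsparse := sparse_sum16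
      (fun q => 2 ≤ run q (b :: a :: u) ∧ run q u ≤ 1 ∧ 1 ≤ q) hP (u.length + 3)
    have hext : Psi u a = ∑ q ∈ Finset.Ico 16 (u.length + 3),
        if 2 ≤ run q u ∧ u[q - 1]? = some a then wt q (run q u) else 0 := by
      unfold Psi
      refine Finset.sum_subset (Finset.Ico_subset_Ico le_rfl (by omega)) (fun q hq hq' => ?_)
      rw [if_neg]
      rintro ⟨h1, _⟩
      rw [Finset.mem_Ico] at hq hq'
      have := drop_length_le (show 1 ≤ q by omega) (show 1 ≤ run q u by omega)
      omega
    have hterm : ∀ q ∈ Finset.Ico 16 (u.length + 3),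
        (if 2 ≤ run q (b :: a :: u) then wt q (run q (b :: a :: u)) else 0) ≤
        3 / 2 * (if 2 ≤ run q u ∧ u[q - 1]? = some a then wt q (run q u) else 0) +
        (if 2 ≤ run q (b :: a :: u) ∧ run q u ≤ 1 ∧ 1 ≤ q then (2 / 3 : ℚ) ^ ((q - 4) / 2)
          else 0) := by
      intro q hq
      rw [Finset.mem_Ico] at hq
      by_cases h2 : 2 ≤ run q (b :: a :: u)
      · rw [if_pos h2]
        obtain ⟨_, f1⟩ := run_cons_pos (show 1 ≤ run q (b :: a :: u) by omega)
        obtain ⟨m1, f2⟩ := run_cons_pos (show 1 ≤ run q (a :: u) by omega)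
        by_cases h3 : 2 ≤ run q u
        · rw [if_pos ⟨h3, m1⟩, if_neg (by omega), add_zero]
          have h4 := hncrit2 q hq.1 m1 h3
          unfold wt
          rw [f1, f2]
          have e : (q - 1 - run q u) / 2 = (q - 1 - (run q u + 1 + 1)) / 2 + 1 := by omega
          rw [e, pow_succ]
          have : (0 : ℚ) ≤ (2 / 3) ^ ((q - 1 - (run q u + 1 + 1)) / 2) := by positivity
          linarith
        · rw [if_neg (by rintro ⟨h, _⟩; exact h3 h), if_pos ⟨h2, by omega, by omega⟩, mul_zero,
            zero_add]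
          unfold wt
          exact pow_le_pow_of_le_one (by norm_num) (by norm_num) (by omega)
      · rw [if_neg h2]
        have : (0 : ℚ) ≤ if 2 ≤ run q u ∧ u[q - 1]? = some a then wt q (run q u) else 0 := by
          split_ifs
          · exact wt_nonneg _ _
          · exact le_rfl
        rw [if_neg (show ¬ (2 ≤ run q (b :: a :: u) ∧ run q u ≤ 1 ∧ 1 ≤ q) from
          fun h => h2 h.1), add_zero]
        linarith
    have hsum := Finset.sum_le_sum hterm
    rw [Finset.sum_add_distrib, ← Finset.mul_sum, ← hext] at hsum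
    have e : (b :: a :: u).length + 1 = u.length + 3 := by simp only [List.length_cons]
    unfold Phi
    rw [e]
    refine hsum.trans ?_
    linarith
  refine ⟨heven, ?_, hbd, ?_, hsm, ?_⟩
  · intro x hx
    rcases List.mem_cons.1 hx with rfl | hx
    · exact hb5
    rcases List.mem_cons.1 hx with rfl | hx
    · exact ha5
    exact hI.lt x hx
  · intro j q hq
    match j with
    | 0 => rw [List.drop_zero]; exact hsq2 q hq
    | 1 => rw [List.drop_succ_cons, List.drop_zero]; exact (hsq1 q hq).1
    | j + 2 =>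
      rw [List.drop_succ_cons, List.drop_succ_cons]
      exact hI.sq j q hq
  · cases hf : tab.find (enc 16 (evec (b :: a :: u))) with
    | none => rw [hf] at hn; exact absurd hn (by simp)
    | some p =>
      obtain ⟨v', g'⟩ := p
      rw [hf] at hn
      simp only [Nat.ble_eq] at hn
      refine ⟨v', g', rfl, ?_⟩
      have : (3 * (Gv (sv u a) : ℚ) + 42) ≤ 2 * v' := by exact_mod_cast hn
      linarith

lemma inv_nil : Inv [] where
  even := rfl
  lt := by simp
  bd := by intro j d _ _; simp [run]
  sq := by intro j q _; simp [run]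
  small := by
    obtain ⟨p, hp⟩ := Option.isSome_iff_exists.1 small_init
    refine ⟨id, p, ⟨rfl, fun x hx => hx, fun x _ y _ e => e, fun y hy => ⟨y, hy, rfl⟩⟩, ?_⟩
    have : (win []).map id ++ rv [] = [9, 9, 9, 9, 9, 9, 9, 0, 0, 0, 0, 0, 0, 0] := by decide
    rw [this]; exact hp
  abs := by
    refine ⟨200, 100, ?_, ?_⟩
    · have : evec [] = [0, 0, 0, 0, 0, 0, 0, 0] := by decide
      rw [this]; exact tab_init
    · simp [Phi]

end Pool.Agent.Lib.MP_f2e062_co.Five
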