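import Mathlib

/-!
The sequence game: Player 2 wins for every alphabet of size at most four.
-/

namespace Pool.Agent.Lib.MP_f2e062_co

/-- reversed prefix of length `n` -/
def Pre {A : Type*} (x : ℕ → A) (n : ℕ) : List A := ((List.range n).map x).reverse

lemma Pre_succ {A : Type*} (x : ℕ → A) (n : ℕ) : Pre x (n + 1) = x n :: Pre x n := by
  unfold Pre
  rw [List.range_succ, List.map_append, List.reverse_append]
  rfl

lemma Pre_length {A : Type*} (x : ℕ → A) (n : ℕ) : (Pre x n).length = n := by
  simp [Pre]

lemma Pre_get {A : Type*} (x : ℕ → A) (n : ℕ) (i : ℕ) (h : i < n) :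
    (Pre x n)[i]? = some (x (n - 1 - i)) := by
  unfold Pre
  rw [List.getElem?_reverse (by simpa using h)]
  simp only [List.length_map, List.length_range, List.getElem?_map]
  rw [List.getElem?_range (by omega)]
  rfl

/-- a reversed word that ends with a square of period at least two or with a cube of a letter -/
def bad {c : ℕ} (h : List (Fin c)) : Bool :=
  (decide (3 ≤ h.length) && decide (h.take 2 = (h.drop 1).take 2)) ||
    (List.range (h.length / 2 + 1)).any (fun b => decide (2 ≤ b) && decide (h.take b = (h.drop b).take b))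

lemma Pre_eq {c : ℕ} (x : ℕ → Fin c) (n b s : ℕ) (hbs : b + s ≤ n)
    (h : (Pre x n).take s = ((Pre x n).drop b).take s) (i : ℕ) (hi : i < s) :
    x (n - 1 - i) = x (n - 1 - i - b) := by
  have h1 := congrArg (fun l => l[i]?) h
  simp only [List.getElem?_take, hi, if_true, List.getElem?_drop] at h1
  rw [Pre_get x n i (by omega), Pre_get x n (b + i) (by omega)] at h1
  have e : n - 1 - (b + i) = n - 1 - i - b := by omega
  rw [e] at h1
  exact Option.some_injective _ h1

/-- the words that are lost for Player 1 contain a repetition -/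
lemma bad_spec {c : ℕ} (x : ℕ → Fin c) (n : ℕ) (h : bad (Pre x n) = true) :
    ∃ l b k : ℕ, 1 ≤ b ∧ 2 ≤ k ∧ 3 ≤ k * b ∧ ∀ j < k, ∀ i < b, x (l + j * b + i) = x (l + i) := by
  unfold bad at h
  rw [Bool.or_eq_true] at h
  rcases h with h | h
  · rw [Bool.and_eq_true, decide_eq_true_iff, decide_eq_true_iff, Pre_length] at h
    obtain ⟨h1, h2⟩ := h
    have h3 := Pre_eq x n 1 2 (by omega) h2
    have h4 := h3 0 (by norm_num)
    have h5 := h3 1 (by norm_num)
    refine ⟨n - 3, 1, 3, le_rfl, by norm_num, by norm_num, ?_⟩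
    intro j hj i hi
    have hi0 : i = 0 := by omega
    subst hi0
    have e0 : n - 1 - 0 = n - 3 + 2 := by omega
    have e1 : n - 1 - 0 - 1 = n - 3 + 1 := by omega
    have e2 : n - 1 - 1 = n - 3 + 1 := by omega
    have e3 : n - 1 - 1 - 1 = n - 3 := by omega
    rw [e1, e0] at h4
    rw [e3, e2] at h5
    interval_cases j
    · rfl
    · simpa using h5
    · simpa using h4.trans h5
  · rw [List.any_eq_true] at h
    obtain ⟨b, hb, h⟩ := h
    rw [List.mem_range, Pre_length] at hb
    rw [Bool.and_eq_true, decide_eq_true_iff, decide_eq_true_iff] at h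
    obtain ⟨h1, h2⟩ := h
    have h3 := Pre_eq x n b b (by omega) h2
    refine ⟨n - 2 * b, b, 2, by omega, le_rfl, by omega, ?_⟩
    intro j hj i hi
    interval_cases j
    · simp
    · have h4 := h3 (b - 1 - i) (by omega)
      have e1 : n - 1 - (b - 1 - i) = n - 2 * b + 1 * b + i := by omega
      have e2 : n - 2 * b + 1 * b + i - b = n - 2 * b + i := by omega
      rw [e1, e2] at h4
      exact h4

/-- the checker: Player 1 to move, `o` is the answer of Player 2 -/
def W {c : ℕ} (o : List (Fin c) → Fin c) : ℕ → List (Fin c) → Bool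
  | 0, _ => false
  | n + 1, h => (List.finRange c).all fun a =>
      bad (a :: h) || (bad (o (a :: h) :: a :: h) || W o n (o (a :: h) :: a :: h))

/-- every rule for the next symbol gives an infinite play -/
lemma exists_play {A : Type*} (τ : List A → A) :
    ∃ x : ℕ → A, ∀ n, x n = τ ((List.range n).map x) := by
  classical
  let L : ℕ → List A := fun n => Nat.rec [] (fun _ l => l ++ [τ l]) n
  have hL0 : L 0 = [] := rfl
  have hLs : ∀ n, L (n + 1) = L n ++ [τ (L n)] := fun n => rfl
  refine ⟨fun n => τ (L n), fun n => ?_⟩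
  have h : ∀ n, (List.range n).map (fun n => τ (L n)) = L n := by
    intro n
    induction n with
    | zero => rfl
    | succ n ih => rw [List.range_succ, List.map_append, ih, hLs]; rfl
  show τ (L n) = _
  rw [h]

lemma W_spec {c : ℕ} {o : List (Fin c) → Fin c} {x : ℕ → Fin c}
    (hx : ∀ k, x (2 * k + 1) = o (Pre x (2 * k + 1))) :
    ∀ n k, W o n (Pre x (2 * k)) = true →
    ∃ l b k : ℕ, 1 ≤ b ∧ 2 ≤ k ∧ 3 ≤ k * b ∧ ∀ j < k, ∀ i < b, x (l + j * b + i) = x (l + i) := by
  intro n
  induction n with
  | zero => intro k h; simp [W] at h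
  | succ n ih =>
    intro k h
    rw [W, List.all_eq_true] at h
    have h1 := h (x (2 * k)) (List.mem_finRange _)
    rw [← Pre_succ, ← hx, ← Pre_succ] at h1
    rw [Bool.or_eq_true, Bool.or_eq_true] at h1
    rcases h1 with h1 | h1 | h1
    · exact bad_spec x _ h1
    · exact bad_spec x _ h1
    · exact ih (k + 1) h1

/-- If the checker accepts the empty word then Player 1 has no strategy. -/
lemma lower_of_W {c n : ℕ} (o : List (Fin c) → Fin c) (hW : W o n [] = true)
    (σ : List (Fin c) → Fin c) : ∃ x : ℕ → Fin c, (∀ k, x (2 * k) = σ ((List.range (2 * k)).map x)) ∧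
    ∃ l b k : ℕ, 1 ≤ b ∧ 2 ≤ k ∧ 3 ≤ k * b ∧ ∀ j < k, ∀ i < b, x (l + j * b + i) = x (l + i) := by
  obtain ⟨x, hx⟩ := exists_play (fun l : List (Fin c) =>
    if l.length % 2 = 0 then σ l else o l.reverse)
  refine ⟨x, fun k => ?_, ?_⟩
  · rw [hx]
    simp
  · refine W_spec (o := o) (x := x) (fun k => ?_) n 0 ?_
    · rw [hx]
      simp [Pre]
    · simpa [Pre] using hW

/-- numerical code of a reversed word -/
def code {c : ℕ} : List (Fin c) → ℕ
  | [] => 0
  | a :: h => (a.1 + 1) + 5 * code h

/-- answers of Player 2 on four letters (answer 0 where no entry is given) -/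
def table4 : List (ℕ × ℕ) := [
  (1, 1), (36, 1), (37, 1), (58, 1), (59, 1), (82, 2), (84, 2), (107, 3), (108, 3), (957, 2),
  (959, 2), (982, 3), (983, 3), (1461, 2), (1462, 1), (1463, 1), (1464, 2), (1486, 3),
  (1487, 1), (1488, 3), (1489, 1), (2066, 1), (2067, 2), (2068, 2), (2069, 1), (2116, 3),
  (2117, 3), (2118, 2), (2119, 2), (2696, 1), (2697, 3), (2698, 1), (2699, 3), (2721, 2),
  (2722, 2), (2723, 3), (2724, 3), (23991, 3), (23992, 3), (23993, 2), (23994, 2), (24596, 2),
  (24597, 2), (24598, 3), (24599, 3), (36616, 3), (36617, 3), (36618, 2), (36619, 2),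
  (37221, 2), (37222, 2), (37223, 3), (37224, 3), (51736, 3), (51737, 1), (51738, 3),
  (51739, 1), (52946, 1), (52947, 3), (52948, 1), (52949, 3), (67461, 2), (67462, 1),
  (67463, 1), (67464, 2), (68066, 1), (68067, 2), (68068, 2), (68069, 1), (599821, 1),
  (599822, 3), (599823, 1), (599824, 3), (614941, 1), (614942, 2), (614943, 2), (614944, 1),
  (915421, 3), (915424, 3), (930541, 2), (930543, 2), (1293421, 3), (1293424, 3), (1323661, 1),
  (1323662, 1), (1686541, 2), (1686543, 2), (1701661, 1), (1701662, 1), (14995536, 1),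
  (14995537, 1), (15373536, 1), (15373537, 1), (22885558, 1), (22885559, 1), (23263558, 1),
  (23263559, 1), (32335582, 2), (32335584, 2), (33091582, 2), (33091584, 2), (42163607, 3),
  (42163608, 3), (42541607, 3), (42541608, 3), (374888457, 2), (374888459, 2), (384338482, 3),
  (384338483, 3), (572138961, 2), (572138962, 1), (572138963, 1), (572138964, 2),
  (581588986, 3), (581588987, 1), (581588988, 3), (581588989, 1), (808389566, 1),
  (808389567, 2), (808389568, 2), (808389569, 1), (827289616, 3), (827289617, 3),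
  (827289618, 2), (827289619, 2), (1054090196, 1), (1054090197, 3), (1054090198, 1),
  (1054090199, 3), (1063540221, 2), (1063540222, 2), (1063540223, 3), (1063540224, 3),
  (9372211491, 3), (9372211492, 3), (9372211493, 2), (9372211494, 2), (9608462096, 2),
  (9608462097, 2), (9608462098, 3), (9608462099, 3), (14303474116, 3), (14303474117, 3),
  (14303474118, 2), (14303474119, 2), (14539724721, 2), (14539724722, 2), (14539724723, 3),
  (14539724724, 3), (20209739236, 3), (20209739237, 1), (20209739238, 3), (20209739239, 1),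
  (20682240446, 1), (20682240447, 3), (20682240448, 1), (20682240449, 3), (26352254961, 2),
  (26352254962, 1), (26352254963, 1), (26352254964, 2), (26588505566, 1), (26588505567, 2),
  (26588505568, 2), (26588505569, 1)]

/-- answers of Player 2 on three letters -/
def table3 : List (ℕ × ℕ) := [(1, 1), (36, 1), (37, 1), (58, 1), (82, 2), (957, 2), (1461, 2),
  (1462, 1), (1463, 1), (2066, 1), (2067, 2), (2068, 2)]

/-- answers of Player 2 on two letters -/
def table2 : List (ℕ × ℕ) := [(1, 1), (36, 1), (37, 1)]

/-- lookup -/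
def look (t : List (ℕ × ℕ)) (k : ℕ) : ℕ :=
  match t with
  | [] => 0
  | p :: t => if p.1 = k then p.2 else look t k

lemma W4 : W (c := 4) (fun h => Fin.ofNat 4 (look table4 (code h))) 8 [] = true := by decide +kernel

lemma W3 : W (c := 3) (fun h => Fin.ofNat 3 (look table3 (code h))) 3 [] = true := by decide +kernel

lemma W2 : W (c := 2) (fun h => Fin.ofNat 2 (look table2 (code h))) 3 [] = true := by decide +kernel

lemma W1 : W (c := 1) (fun _ => 0) 3 [] = true := by decide +kernel

end Pool.Agent.Lib.MP_f2e062_co
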