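import Mathlib

/-!
The sequence game: Player 1 wins for every alphabet of size at least six.
-/

namespace Pool.Agent.Lib.MP_f2e062_co

variable {A : Type*}

/-- the last `r` letters of the prefix of length `n` agree with the letters `m` places earlier -/
def Run (x : ℕ → A) (m n r : ℕ) : Prop := m + r ≤ n ∧ ∀ i, n ≤ i + r → i < n → x i = x (i - m)

lemma Run.congr {x y : ℕ → A} {m n r : ℕ} (h : ∀ i, i < n → x i = y i) (hr : Run x m n r) :
    Run y m n r := by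
  refine ⟨hr.1, fun i h1 h2 => ?_⟩
  rw [← h i h2, ← h (i - m) (by omega)]
  exact hr.2 i h1 h2

lemma Run.mono {x : ℕ → A} {m n r s : ℕ} (hr : Run x m n r) (hs : s ≤ r) : Run x m n s :=
  ⟨by have := hr.1; omega, fun i h1 h2 => hr.2 i (by omega) h2⟩

lemma Run.back {x : ℕ → A} {m n r : ℕ} (t : ℕ) (hr : Run x m n r) (ht : t ≤ r) :
    Run x m (n - t) (r - t) :=
  ⟨by have := hr.1; omega, fun i h1 h2 => hr.2 i (by omega) (by omega)⟩

/-- two periods with a common run give a run of their difference -/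
lemma Run.pair {x : ℕ → A} {m p n R : ℕ} (h1 : Run x m n R) (h2 : Run x (m + p) n R) :
    Run x p (n - m) R := by
  refine ⟨by have := h2.1; omega, fun i hi1 hi2 => ?_⟩
  have e1 := h1.2 (i + m) (by omega) (by omega)
  have e2 := h2.2 (i + m) (by omega) (by omega)
  have e3 : i + m - m = i := by omega
  have e4 : i + m - (m + p) = i - p := by omega
  rw [e3] at e1
  rw [e4] at e2
  rw [← e1, e2]

/-- the invariant: after a move of Player 1 runs are short -/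
def Inv (x : ℕ → A) (l : ℕ) : Prop :=
  ∀ k, 2 * k + 1 ≤ l → ∀ p, 1 ≤ p → ¬ Run x p (2 * k + 1) (max (p - 1) 1)

lemma Inv.any {x : ℕ → A} {l : ℕ} (h : Inv x l) {l' : ℕ} (hl : l' ≤ l) {p R : ℕ} (hp : 1 ≤ p)
    (hR : max p 2 ≤ R) : ¬ Run x p l' R := by
  intro hr
  have hR1 : p ≤ R := le_trans (le_max_left _ _) hR
  have hR2 : 2 ≤ R := le_trans (le_max_right _ _) hR
  rcases Nat.even_or_odd' l' with ⟨k, hk | hk⟩
  · have h0 := hr.1
    have hk1 : 1 ≤ k := by omega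
    have h1 := hr.back 1 (by omega)
    have e : l' - 1 = 2 * (k - 1) + 1 := by omega
    rw [e] at h1
    refine h (k - 1) (by omega) p hp (h1.mono ?_)
    rw [max_le_iff]; omega
  · subst hk
    refine h k hl p hp (hr.mono ?_)
    rw [max_le_iff]; omega

/-- the scheduled class at turn `k` -/
def Act (x : ℕ → A) (k m : ℕ) : Prop :=
  ∃ i, (k % 2 ^ (i + 2) = 2 ^ i ∧ 3 * 2 ^ (i + 2) - 1 ≤ m ∧ m ≤ 4 * 2 ^ (i + 2) - 2 ∧
      Run x m (2 * k) (2 ^ (i + 2) - 1)) ∨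
    (k % 2 ^ (i + 2) = 3 * 2 ^ i ∧ 4 * 2 ^ (i + 2) - 1 ≤ m ∧ m ≤ 6 * 2 ^ (i + 2) - 2 ∧
      Run x m (2 * k) (2 * 2 ^ (i + 2) - 1))

/-- the letters allowed for Player 1 at turn `k` -/
def Good (x : ℕ → A) (k : ℕ) (a : A) : Prop :=
  (1 ≤ k → a ≠ x (2 * k - 1)) ∧ (1 ≤ k → a ≠ x (2 * k - 2)) ∧
  (∀ m, 3 ≤ m → m ≤ 5 → Run x m (2 * k) (m - 2) → a ≠ x (2 * k - m)) ∧
  (∀ m, 6 ≤ m → m ≤ 10 → Run x m (2 * k) (m - 2) → a ≠ x (2 * k - m)) ∧
  (∀ m, Act x k m → a ≠ x (2 * k - m))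

lemma Act.congr {x y : ℕ → A} {k m : ℕ} (h : ∀ i, i < 2 * k → x i = y i) (ha : Act x k m) :
    Act y k m := by
  obtain ⟨i, ⟨h1, h2, h3, h4⟩ | ⟨h1, h2, h3, h4⟩⟩ := ha
  · exact ⟨i, Or.inl ⟨h1, h2, h3, h4.congr h⟩⟩
  · exact ⟨i, Or.inr ⟨h1, h2, h3, h4.congr h⟩⟩

lemma Act.le {x : ℕ → A} {k m : ℕ} (ha : Act x k m) : 1 ≤ m ∧ m ≤ 2 * k := by
  obtain ⟨i, ⟨h1, h2, h3, h4⟩ | ⟨h1, h2, h3, h4⟩⟩ := ha
  · have := h4.1
    have : 0 < 2 ^ (i + 2) := by positivity
    omega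
  · have := h4.1
    have : 0 < 2 ^ (i + 2) := by positivity
    omega

lemma Good.congr {x y : ℕ → A} {k : ℕ} {a : A} (h : ∀ i, i < 2 * k → x i = y i)
    (hg : Good x k a) : Good y k a := by
  obtain ⟨h1, h2, h3, h4, h5⟩ := hg
  refine ⟨fun hk => ?_, fun hk => ?_, fun m hm1 hm2 hr => ?_, fun m hm1 hm2 hr => ?_,
    fun m hm => ?_⟩
  · rw [← h _ (by omega)]; exact h1 hk
  · rw [← h _ (by omega)]; exact h2 hk
  · have h6 := h3 m hm1 hm2 (hr.congr (fun i hi => (h i hi).symm))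
    have := hr.1
    rw [← h _ (by omega)]; exact h6
  · have h6 := h4 m hm1 hm2 (hr.congr (fun i hi => (h i hi).symm))
    have := hr.1
    rw [← h _ (by omega)]; exact h6
  · have h6 := h5 m (hm.congr (fun i hi => (h i hi).symm))
    have := hm.le
    rw [← h _ (by omega)]; exact h6

/-- a class of periods in which at most one period is active forbids at most one letter -/
lemma one_letter {A : Type*} [Nonempty A] (P : ℕ → Prop) (f : ℕ → A)
    (h : ∀ m m', m < m' → P m → P m' → False) : ∃ b : A, ∀ m, P m → f m = b := by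
  classical
  by_cases hex : ∃ m, P m
  · obtain ⟨m, hm⟩ := hex
    refine ⟨f m, fun m' hm' => ?_⟩
    rcases lt_trichotomy m m' with hlt | heq | hgt
    · exact (h m m' hlt hm hm').elim
    · rw [heq]
    · exact (h m' m hgt hm' hm).elim
  · obtain ⟨b⟩ := ‹Nonempty A›
    exact ⟨b, fun m hm => (hex ⟨m, hm⟩).elim⟩

lemma slot_unique {k i j : ℕ} (hi : k % 2 ^ (i + 2) = 2 ^ i ∨ k % 2 ^ (i + 2) = 3 * 2 ^ i)
    (hj : k % 2 ^ (j + 2) = 2 ^ j ∨ k % 2 ^ (j + 2) = 3 * 2 ^ j) : i = j := by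
  have key : ∀ i, (k % 2 ^ (i + 2) = 2 ^ i ∨ k % 2 ^ (i + 2) = 3 * 2 ^ i) →
      2 ^ i ∣ k ∧ ¬ 2 ^ (i + 1) ∣ k := by
    intro i hi
    have e : 2 ^ (i + 2) = 4 * 2 ^ i := by ring
    have e1 : 2 ^ (i + 1) = 2 * 2 ^ i := by ring
    have hdiv := Nat.div_add_mod k (2 ^ (i + 2))
    set q := k / 2 ^ (i + 2) with hq
    rw [e] at hdiv
    rw [e] at hi
    have hpos : 0 < 2 ^ i := by positivity
    have : ∃ u, k = 2 ^ i * u ∧ (u % 2 = 1) := by
      rcases hi with hi | hi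
      · refine ⟨4 * q + 1, ?_, by omega⟩
        rw [hi] at hdiv; rw [← hdiv]; ring
      · refine ⟨4 * q + 3, ?_, by omega⟩
        rw [hi] at hdiv; rw [← hdiv]; ring
    obtain ⟨u, hu, hu2⟩ := this
    refine ⟨⟨u, hu⟩, ?_⟩
    rintro ⟨v, hv⟩
    rw [e1, hu] at hv
    have : u = 2 * v := by
      have h2 : 2 ^ i * u = 2 ^ i * (2 * v) := by rw [hv]; ring
      exact Nat.eq_of_mul_eq_mul_left hpos h2
    omega
  obtain ⟨h1, h2⟩ := key i hi
  obtain ⟨h3, h4⟩ := key j hj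
  rcases lt_trichotomy i j with h | h | h
  · exact (h2 ((pow_dvd_pow 2 h).trans h3)).elim
  · exact h
  · exact (h4 ((pow_dvd_pow 2 h).trans h1)).elim

lemma act_unique {x : ℕ → A} {k : ℕ} (hI : Inv x (2 * k)) {m m' : ℕ} (hlt : m < m')
    (h1 : Act x k m) (h2 : Act x k m') : False := by
  obtain ⟨i, hi⟩ := h1
  obtain ⟨j, hj⟩ := h2
  have hij : i = j := by
    apply slot_unique (k := k)
    · rcases hi with hi | hi
      · exact Or.inl hi.1
      · exact Or.inr hi.1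
    · rcases hj with hj | hj
      · exact Or.inl hj.1
      · exact Or.inr hj.1
  subst hij
  have hpos : 0 < 2 ^ i := by positivity
  have e : 2 ^ (i + 2) = 4 * 2 ^ i := by ring
  obtain ⟨p, rfl⟩ : ∃ p, m' = m + p := ⟨m' - m, by omega⟩
  rcases hi with ⟨a1, a2, a3, a4⟩ | ⟨a1, a2, a3, a4⟩ <;>
  rcases hj with ⟨b1, b2, b3, b4⟩ | ⟨b1, b2, b3, b4⟩
  · exact hI.any (Nat.sub_le _ _) (by omega) (by rw [max_le_iff]; omega) (a4.pair b4)
  · omega
  · omega
  · exact hI.any (Nat.sub_le _ _) (by omega) (by rw [max_le_iff]; omega) (a4.pair b4)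

lemma exists_good {x : ℕ → A} [Fintype A] (hA : 6 ≤ Fintype.card A) {k : ℕ}
    (hI : Inv x (2 * k)) : ∃ a, Good x k a := by
  classical
  have : Nonempty A := Fintype.card_pos_iff.1 (by omega)
  obtain ⟨b3, h3⟩ := one_letter (fun m => 3 ≤ m ∧ m ≤ 5 ∧ Run x m (2 * k) (m - 2))
    (fun m => x (2 * k - m)) (by
      rintro m m' hlt ⟨a1, a2, a3⟩ ⟨b1, b2, b3⟩
      obtain ⟨p, rfl⟩ : ∃ p, m' = m + p := ⟨m' - m, by omega⟩
      have h := a3.pair (b3.mono (s := m - 2) (by omega))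
      have h0 := b3.1
      by_cases hm : m = 3
      · subst hm
        have e : 2 * k - 3 = 2 * (k - 2) + 1 := by omega
        rw [e] at h
        refine hI (k - 2) (by omega) p (by omega) (h.mono ?_)
        rw [max_le_iff]; omega
      · refine hI.any (Nat.sub_le _ _) (by omega) ?_ h
        rw [max_le_iff]; omega)
  obtain ⟨b4, h4⟩ := one_letter (fun m => 6 ≤ m ∧ m ≤ 10 ∧ Run x m (2 * k) (m - 2))
    (fun m => x (2 * k - m)) (by
      rintro m m' hlt ⟨a1, a2, a3⟩ ⟨b1, b2, b3⟩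
      obtain ⟨p, rfl⟩ : ∃ p, m' = m + p := ⟨m' - m, by omega⟩
      have h := a3.pair (b3.mono (s := m - 2) (by omega))
      refine hI.any (Nat.sub_le _ _) (by omega) ?_ h
      rw [max_le_iff]; omega)
  obtain ⟨b5, h5⟩ := one_letter (fun m => Act x k m) (fun m => x (2 * k - m))
    (fun m m' hlt h1 h2 => act_unique hI hlt h1 h2)
  have hcard : ({x (2 * k - 1), x (2 * k - 2), b3, b4, b5} : Finset A).card <
      (Finset.univ : Finset A).card := by
    have h := Finset.card_le_five (a := x (2 * k - 1)) (b := x (2 * k - 2)) (c := b3) (d := b4)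
      (e := b5)
    rw [Finset.card_univ]; omega
  obtain ⟨a, _, ha⟩ := Finset.exists_mem_notMem_of_card_lt_card hcard
  simp only [Finset.mem_insert, Finset.mem_singleton, not_or] at ha
  obtain ⟨ha1, ha2, ha3, ha4, ha5⟩ := ha
  refine ⟨a, fun _ => ha1, fun _ => ha2, fun m hm1 hm2 hr => ?_, fun m hm1 hm2 hr => ?_,
    fun m hm => ?_⟩
  · rw [h3 m ⟨hm1, hm2, hr⟩]; exact ha3
  · rw [h4 m ⟨hm1, hm2, hr⟩]; exact ha4
  · rw [h5 m hm]; exact ha5

lemma exists_class {p : ℕ} (hp : 11 ≤ p) :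
    ∃ i, 3 * 2 ^ (i + 2) - 1 ≤ p ∧ p ≤ 6 * 2 ^ (i + 2) - 2 := by
  have h1 : (p + 1) / 12 ≠ 0 := by omega
  have h2 := Nat.pow_log_le_self 2 h1
  have h3 := Nat.lt_pow_succ_log_self (b := 2) (by norm_num) ((p + 1) / 12)
  refine ⟨Nat.log 2 ((p + 1) / 12), ?_⟩
  set i := Nat.log 2 ((p + 1) / 12)
  have e : 2 ^ (i + 2) = 4 * 2 ^ i := by ring
  have e1 : 2 ^ (i + 1) = 2 * 2 ^ i := by ring
  rw [Nat.succ_eq_add_one, e1] at h3
  rw [e]
  omega

lemma exists_slot {N r k : ℕ} (hN : 0 < N) (hr : r < N) (hk : N ≤ k) :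
    ∃ t, t < N ∧ (k - t) % N = r := by
  refine ⟨(k + (N - r)) % N, Nat.mod_lt _ hN, ?_⟩
  have h1 := Nat.div_add_mod (k + (N - r)) N
  have h2 : (k + (N - r)) % N < N := Nat.mod_lt _ hN
  set t := (k + (N - r)) % N with ht
  set q := (k + (N - r)) / N with hq
  have hq1 : 1 ≤ q := by
    rw [hq, Nat.one_le_div_iff hN]; omega
  obtain ⟨q', hq'⟩ : ∃ q', q = q' + 1 := ⟨q - 1, by omega⟩
  have e : N * (q' + 1) = N * q' + N := by ring
  rw [hq', e] at h1
  have h3 : k - t = r + N * q' := by omega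
  rw [h3, Nat.add_mul_mod_self_left, Nat.mod_eq_of_lt hr]

/-- one more move of Player 1 keeps all runs short -/
lemma step {x : ℕ → A} {k : ℕ} (hG : ∀ k' ≤ k, Good x k' (x (2 * k'))) {p : ℕ} (hp : 1 ≤ p) :
    ¬ Run x p (2 * k + 1) (max (p - 1) 1) := by
  intro hr
  have h1 := hr.1
  have hm1 : 1 ≤ max (p - 1) 1 := le_max_right _ _
  have hm2 : p - 1 ≤ max (p - 1) 1 := le_max_left _ _
  have hlast := hr.2 (2 * k) (by omega) (by omega)
  obtain ⟨g1, g2, g3, g4, g5⟩ := hG k le_rfl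
  by_cases hp1 : p = 1
  · subst hp1; exact g1 (by omega) hlast
  by_cases hp2 : p = 2
  · subst hp2; exact g2 (by omega) hlast
  have hb := (hr.mono hm2).back 1 (by omega)
  have e1 : 2 * k + 1 - 1 = 2 * k := by omega
  have e2 : p - 1 - 1 = p - 2 := by omega
  rw [e1, e2] at hb
  by_cases hp5 : p ≤ 5
  · exact g3 p (by omega) hp5 hb hlast
  by_cases hp10 : p ≤ 10
  · exact g4 p (by omega) hp10 hb hlast
  obtain ⟨i, hi1, hi2⟩ := exists_class (p := p) (by omega)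
  have hpos : 0 < 2 ^ i := by positivity
  have e : 2 ^ (i + 2) = 4 * 2 ^ i := by ring
  have hb1 := hb.1
  have hkN : 2 ^ (i + 2) ≤ k := by omega
  -- the slot
  have main : ∀ r ρ : ℕ, r < 2 ^ (i + 2) → ρ + 2 * 2 ^ (i + 2) ≤ p →
      (∀ k', k' % 2 ^ (i + 2) = r → Run x p (2 * k') ρ → Act x k' p) → False := by
    intro r ρ hr1 hr2 hact
    obtain ⟨t, ht1, ht2⟩ := exists_slot (N := 2 ^ (i + 2)) (by positivity) hr1 hkN
    have h3 := hb.back (2 * t) (by omega)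
    have e3 : 2 * k - 2 * t = 2 * (k - t) := by omega
    rw [e3] at h3
    have h4 := hact (k - t) ht2 (h3.mono (by omega))
    have h5 := (hG (k - t) (by omega)).2.2.2.2 p h4
    exact h5 (hr.2 (2 * (k - t)) (by omega) (by omega))
  by_cases hp4 : p ≤ 4 * 2 ^ (i + 2) - 2
  · exact main (2 ^ i) (2 ^ (i + 2) - 1) (by omega) (by omega)
      (fun k' hk' hrun => ⟨i, Or.inl ⟨hk', hi1, hp4, hrun⟩⟩)
  · exact main (3 * 2 ^ i) (2 * 2 ^ (i + 2) - 1) (by omega) (by omega)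
      (fun k' hk' hrun => ⟨i, Or.inr ⟨hk', by omega, hi2, hrun⟩⟩)

lemma inv_of_good {x : ℕ → A} {k : ℕ} (hG : ∀ k' < k, Good x k' (x (2 * k'))) :
    Inv x (2 * k) := by
  intro k' hk' p hp
  exact step (fun k'' hk'' => hG k'' (by omega)) hp

/-- no repetition of total length at least three -/
lemma no_rep {x : ℕ → A} (hG : ∀ k, Good x k (x (2 * k))) {l b k : ℕ} (hb : 1 ≤ b) (hk : 2 ≤ k)
    (hkb : 3 ≤ k * b) (h : ∀ j < k, ∀ i < b, x (l + j * b + i) = x (l + i)) : False := by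
  by_cases hb1 : b = 1
  · subst hb1
    have hk3 : 3 ≤ k := by omega
    have h1 := h 1 (by omega) 0 (by omega)
    have h2 := h 2 (by omega) 0 (by omega)
    simp only [mul_one, add_zero] at h1 h2
    refine (inv_of_good (k := l + 3) (fun k' _ => hG k')).any (l' := l + 3) (p := 1) (R := 2)
      (by omega) le_rfl (by norm_num) ⟨by omega, fun i hi1 hi2 => ?_⟩
    have : i = l + 1 ∨ i = l + 2 := by omega
    rcases this with rfl | rfl
    · rw [h1]; rfl
    · rw [h2]; exact h1.symm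
  · have h1 := h 1 (by omega)
    refine (inv_of_good (k := l + 2 * b) (fun k' _ => hG k')).any (l' := l + 2 * b) (p := b)
      (R := b) (by omega) hb (by rw [max_le_iff]; omega) ⟨by omega, fun i hi1 hi2 => ?_⟩
    have h2 := h1 (i - l - b) (by omega)
    have e1 : l + 1 * b + (i - l - b) = i := by omega
    have e2 : l + (i - l - b) = i - b := by omega
    rw [e1, e2] at h2
    exact h2

end Pool.Agent.Lib.MP_f2e062_co
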